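import Pool.Agent.helper54.V3.SpecE

/-!
# Project v3, part E, FCI: circle integrals of entire functions
-/

set_option autoImplicit false

open Complex Metric Set Filter Topology MeasureTheory

namespace V3

/-- mean value property -/
theorem FCI_mean (f : ℂ → ℂ) (hf : Differentiable ℂ f) (r : ℝ) :
    ∫ φ in (0 : ℝ)..(2 * Real.pi), f (r * exp (φ * I)) = 2 * Real.pi * f 0 := by
  have h1 : Real.circleAverage f 0 r = f 0 := hf.diffContOnCl.circleAverage
  rw [Real.circleAverage_def] at h1
  have h2 : ∀ φ : ℝ, f (circleMap 0 r φ) = f (r * exp (φ * I)) := by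
    intro φ
    unfold circleMap
    rw [zero_add]
  simp only [h2] at h1
  rw [← h1, Complex.real_smul]
  have hpi : ((2 * Real.pi : ℝ) : ℂ) ≠ 0 := by
    exact_mod_cast (by positivity : (2 * Real.pi) ≠ 0)
  have h3 : (2 * (Real.pi : ℂ)) = ((2 * Real.pi : ℝ) : ℂ) := by push_cast; ring
  rw [h3, Complex.ofReal_inv, ← mul_assoc, mul_inv_cancel₀ hpi, one_mul]

theorem FCI : FCI_stmt := by
  intro q hq
  constructor
  · intro d r hd hr
    have hf : Differentiable ℂ (fun z => q z * z ^ d) := hq.mul (differentiable_id.pow d)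
    have h1 := FCI_mean _ hf r
    have h0 : q 0 * 0 ^ d = 0 := by rw [zero_pow (by omega), mul_zero]
    rw [h0, mul_zero] at h1
    have h2 : ∀ φ : ℝ, q (r * exp (φ * I)) * (r * exp (φ * I)) ^ d =
        ((r : ℂ) ^ d) * (q (r * exp (φ * I)) * exp (d * φ * I)) := by
      intro φ
      rw [mul_pow, ← Complex.exp_nat_mul]
      have h3 : (d : ℂ) * (φ * I) = d * φ * I := by ring
      rw [h3]
      ring
    simp only [h2] at h1
    rw [intervalIntegral.integral_const_mul] at h1
    have hr0 : ((r : ℂ) ^ d) ≠ 0 := pow_ne_zero _ (by exact_mod_cast hr.ne')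
    exact (mul_eq_zero.1 h1).resolve_left hr0
  · rintro ⟨x, hx⟩
    have han : AnalyticAt ℂ q 0 := hq.analyticAt 0
    have hne : ¬ ∀ᶠ z in 𝓝 (0 : ℂ), q z = 0 := by
      intro h
      have h1 : AnalyticOnNhd ℂ q univ := fun z _ => hq.analyticAt z
      have h2 : AnalyticOnNhd ℂ (fun _ : ℂ => (0 : ℂ)) univ := fun z _ => analyticAt_const
      have h3 : q = fun _ => (0 : ℂ) := h1.eq_of_eventuallyEq h2 h
      exact hx (congrFun h3 x)
    obtain ⟨n, g, hg, hg0, hgq⟩ := han.exists_eventuallyEq_pow_smul_nonzero_iff.2 hne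
    let h : ℂ → ℂ := fun z => if z = 0 then g 0 else q z / z ^ n
    have hh0 : h 0 = g 0 := if_pos rfl
    have hq' : ∀ z : ℂ, z ≠ 0 → q z = z ^ n * h z := by
      intro z hz
      have : h z = q z / z ^ n := if_neg hz
      rw [this]
      field_simp
    have hhd : Differentiable ℂ h := by
      intro z
      by_cases hz : z = 0
      · subst hz
        have h1 : h =ᶠ[𝓝 0] g := by
          filter_upwards [hgq] with w hw
          by_cases hw0 : w = 0
          · rw [hw0, hh0]
          · have h2 : h w = q w / w ^ n := if_neg hw0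
            rw [h2, hw, sub_zero, smul_eq_mul]
            field_simp
        exact (hg.congr h1.symm).differentiableAt
      · have h1 : h =ᶠ[𝓝 z] fun w => q w / w ^ n := by
          filter_upwards [isOpen_ne.mem_nhds hz] with w hw
          exact if_neg hw
        refine DifferentiableAt.congr_of_eventuallyEq ?_ h1
        exact (hq z).div ((differentiable_id.pow n) z) (pow_ne_zero n hz)
    refine ⟨2 * Real.pi * ‖g 0‖, by positivity, fun r hr => ?_⟩
    have hr0 : 0 < r := by linarith
    have hm := FCI_mean h hhd r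
    have h1 : 2 * Real.pi * ‖g 0‖ ≤ ∫ φ in (0 : ℝ)..(2 * Real.pi), ‖h (r * exp (φ * I))‖ := by
      have h2 : ‖∫ φ in (0 : ℝ)..(2 * Real.pi), h (r * exp (φ * I))‖ = 2 * Real.pi * ‖g 0‖ := by
        rw [hm, hh0, norm_mul, norm_mul, Complex.norm_real, Complex.norm_two, Real.norm_eq_abs,
          abs_of_pos Real.pi_pos]
      rw [← h2]
      exact intervalIntegral.norm_integral_le_integral_norm (by positivity)
    refine h1.trans ?_
    have hcont : Continuous (fun φ : ℝ => (r : ℂ) * exp (φ * I)) := by fun_prop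
    refine intervalIntegral.integral_mono_on (by positivity)
      ((hhd.continuous.comp hcont).norm.intervalIntegrable _ _)
      ((hq.continuous.comp hcont).norm.intervalIntegrable _ _) (fun φ _ => ?_)
    have h3 : (r : ℂ) * exp (φ * I) ≠ 0 :=
      mul_ne_zero (by exact_mod_cast hr0.ne') (Complex.exp_ne_zero _)
    have h4 : ‖(r : ℂ) * exp (φ * I)‖ = r := by
      rw [norm_mul, Complex.norm_exp_ofReal_mul_I, mul_one, Complex.norm_real, Real.norm_eq_abs,
        abs_of_pos hr0]
    rw [hq' _ h3, norm_mul, norm_pow, h4]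
    have h5 : 1 ≤ r ^ n := one_le_pow₀ hr
    nlinarith [norm_nonneg (h ((r : ℂ) * exp (φ * I)))]

end V3
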