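import Pool.Agent.helper10.V3.SpecL

/-!
# Project v3, PTS: two points where the quadratic differential is bounded
-/

set_option autoImplicit false

open Complex Metric Set Filter Topology MeasureTheory MPS

noncomputable section

namespace V3S

theorem PTS_one (C₁ C₃ : ℝ) (hC₁ : 1 ≤ C₁) (hC₃ : 1 ≤ C₃)
    (hKO1 : ∀ (G : ℂ → ℂ) (a : ℂ) (r : ℝ), 0 < r → DifferentiableOn ℂ G (ball a r) →
      InjOn G (ball a r) → ball (G a) (r * ‖deriv G a‖ / C₁) ⊆ G '' ball a r)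
    (hKO3 : ∀ (G : ℂ → ℂ) (a : ℂ) (r : ℝ), 0 < r →
      DifferentiableOn ℂ G (ball a r) → InjOn G (ball a r) →
      ‖iteratedDeriv 2 G a‖ ≤ C₃ * ‖deriv G a‖ / r ∧
      ∀ x ∈ ball a ((1 - 1 / 2) * r), ‖deriv G x‖ ≤ C₃ * ‖deriv G a‖ ∧
        ‖deriv G a‖ ≤ C₃ * ‖deriv G x‖ ∧
        ‖G x - G a‖ ≤ C₃ * ‖x - a‖ * ‖deriv G a‖ ∧
        ‖deriv G x - deriv G a‖ ≤ C₃ * (‖x - a‖ / r) * ‖deriv G a‖)
    (hNI : MPS.NI_stmt) (hND : MPS.ND_stmt) (n : ℕ) (ra : ℝ) (Cf : ℝ → ℝ) (D : Dat)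
    (hD : D.Good n ra Cf) (hsg : D.sg ≠ 0) (hzx : ∀ z, D.zz (D.xx z) = z) (u : ℂ)
    (hu : ‖u‖ = 1 / 4) :
    ‖D.xx (D.ψ 0 u)‖ ≤ C₃ ∧ ‖D.B (D.xx (D.ψ 0 u))‖ ≤ 16 * C₃ ^ 2 ∧
    16 / C₃ ^ 2 ≤ ‖D.B (D.xx (D.ψ 0 u))‖ ∧
    (∀ l, 1 / (4 * C₁ * C₃) ≤ ‖D.xx (D.ψ 0 u) - D.p l‖) ∧
    (∀ w ∈ ball (0 : ℂ) 1, w ∉ ball u (1 / 4) →
      1 / (4 * C₁ * C₃) ≤ ‖D.xx (D.ψ 0 u) - D.xx (D.ψ 0 w)‖) := by
  have hsg0 : 0 < ‖D.sg‖ := norm_pos_iff.2 hsg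
  have hpn : PN D.b D.g 0 (D.ψ 0) 1 := (hD.mx 0).pn
  have hinj : InjOn (D.ψ 0) (ball 0 1) := hNI D.k D.b D.g 0 (D.ψ 0) 1 hpn
  have hC₁0 : 0 < C₁ := by linarith
  have hC₃0 : 0 < C₃ := by linarith
  have hu0 : u ≠ 0 := by
    intro h
    rw [h, norm_zero] at hu
    norm_num at hu
  have hu1 : u ∈ ball (0 : ℂ) 1 := by
    rw [mem_ball_zero_iff, hu]
    norm_num
  have hu2 : u ∈ ball (0 : ℂ) ((1 - 1 / 2) * 1) := by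
    rw [mem_ball_zero_iff, hu]
    norm_num
  have hsub : ball u (1 / 4) ⊆ ball (0 : ℂ) 1 := by
    intro w hw
    rw [mem_ball_zero_iff]
    rw [mem_ball, dist_eq_norm] at hw
    have h1 : ‖w‖ ≤ ‖w - u‖ + ‖u‖ := by
      have := norm_add_le (w - u) u
      rwa [sub_add_cancel] at this
    linarith
  obtain ⟨-, h3⟩ := hKO3 (D.ψ 0) 0 1 one_pos hpn.diff hinj
  obtain ⟨h31, h32, h33, -⟩ := h3 u hu2
  have hsge : deriv (D.ψ 0) 0 = D.sg := rfl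
  rw [hsge] at h31 h32 h33
  rw [sub_zero, hu] at h33
  -- distances in the two planes
  have hxx : ∀ z w : ℂ, ‖D.xx z - D.xx w‖ = ‖z - w‖ / ‖D.sg‖ := by
    intro z w
    have h : D.xx z - D.xx w = (z - w) / D.sg := by
      unfold Dat.xx
      field_simp
      ring
    rw [h, norm_div]
  -- the quarter type theorem
  have hKO : ∀ z : ℂ, z ∉ D.ψ 0 '' ball u (1 / 4) →
      1 / (4 * C₁ * C₃) ≤ ‖D.xx (D.ψ 0 u) - D.xx z‖ := by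
    intro z hz
    have h1 := hKO1 (D.ψ 0) u (1 / 4) (by norm_num) (hpn.diff.mono hsub) (hinj.mono hsub)
    have h2 : z ∉ ball (D.ψ 0 u) (1 / 4 * ‖deriv (D.ψ 0) u‖ / C₁) := fun h => hz (h1 h)
    rw [mem_ball, dist_eq_norm, not_lt, norm_sub_rev] at h2
    rw [hxx, le_div_iff₀ hsg0]
    refine le_trans ?_ h2
    rw [le_div_iff₀ hC₁0]
    have h4 : 1 / (4 * C₁ * C₃) * ‖D.sg‖ * C₁ = 1 / 4 * (‖D.sg‖ / C₃) := by
      field_simp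
    rw [h4]
    have h5 : ‖D.sg‖ / C₃ ≤ ‖deriv (D.ψ 0) u‖ := by
      rw [div_le_iff₀ hC₃0, mul_comm]
      exact h32
    linarith
  refine ⟨?_, ?_, ?_, ?_, ?_⟩
  · have h : ‖D.xx (D.ψ 0 u)‖ = ‖D.ψ 0 u - D.ψ 0 0‖ / ‖D.sg‖ := by
      rw [← norm_div, hpn.val]
      rfl
    rw [h, div_le_iff₀ hsg0]
    nlinarith
  · have heq := hpn.eq u hu1 hu0
    have hB : D.B (D.xx (D.ψ 0 u)) = D.sg ^ 2 * BB D.b D.g (D.ψ 0 u) := by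
      unfold Dat.B
      rw [hzx]
    have hn : (1 / 16) * ‖deriv (D.ψ 0) u‖ ^ 2 * ‖BB D.b D.g (D.ψ 0 u)‖ = 1 := by
      have h := congrArg norm heq
      rw [norm_mul, norm_mul, norm_pow, norm_pow, hu, norm_one] at h
      linear_combination h
    rw [hB, norm_mul, norm_pow]
    have hdp : 0 < ‖deriv (D.ψ 0) u‖ ^ 2 := by
      by_contra hc
      have h0 : ‖deriv (D.ψ 0) u‖ ^ 2 = 0 := le_antisymm (not_lt.1 hc) (by positivity)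
      rw [h0] at hn
      norm_num at hn
    have h5 : ‖D.sg‖ ^ 2 ≤ C₃ ^ 2 * ‖deriv (D.ψ 0) u‖ ^ 2 := by
      rw [← mul_pow]
      exact pow_le_pow_left₀ hsg0.le h32 2
    calc ‖D.sg‖ ^ 2 * ‖BB D.b D.g (D.ψ 0 u)‖
        ≤ C₃ ^ 2 * ‖deriv (D.ψ 0) u‖ ^ 2 * ‖BB D.b D.g (D.ψ 0 u)‖ :=
          mul_le_mul_of_nonneg_right h5 (norm_nonneg _)
      _ = 16 * C₃ ^ 2 * ((1 / 16) * ‖deriv (D.ψ 0) u‖ ^ 2 * ‖BB D.b D.g (D.ψ 0 u)‖) := by ring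
      _ = 16 * C₃ ^ 2 := by rw [hn, mul_one]
  · have heq := hpn.eq u hu1 hu0
    have hB : D.B (D.xx (D.ψ 0 u)) = D.sg ^ 2 * BB D.b D.g (D.ψ 0 u) := by
      unfold Dat.B
      rw [hzx]
    have hn : (1 / 16) * ‖deriv (D.ψ 0) u‖ ^ 2 * ‖BB D.b D.g (D.ψ 0 u)‖ = 1 := by
      have h := congrArg norm heq
      rw [norm_mul, norm_mul, norm_pow, norm_pow, hu, norm_one] at h
      linear_combination h
    rw [hB, norm_mul, norm_pow, div_le_iff₀ (by positivity)]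
    have h5 : ‖deriv (D.ψ 0) u‖ ^ 2 ≤ C₃ ^ 2 * ‖D.sg‖ ^ 2 := by
      rw [← mul_pow]
      exact pow_le_pow_left₀ (norm_nonneg _) h31 2
    calc (16 : ℝ) = 16 * ((1 / 16) * ‖deriv (D.ψ 0) u‖ ^ 2 * ‖BB D.b D.g (D.ψ 0 u)‖) := by
          rw [hn, mul_one]
      _ = ‖deriv (D.ψ 0) u‖ ^ 2 * ‖BB D.b D.g (D.ψ 0 u)‖ := by ring
      _ ≤ C₃ ^ 2 * ‖D.sg‖ ^ 2 * ‖BB D.b D.g (D.ψ 0 u)‖ :=
          mul_le_mul_of_nonneg_right h5 (norm_nonneg _)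
      _ = ‖D.sg‖ ^ 2 * ‖BB D.b D.g (D.ψ 0 u)‖ * C₃ ^ 2 := by ring
  · intro l
    apply hKO (D.b l)
    rintro ⟨w, hw, hwl⟩
    by_cases hl : l = 0
    · subst hl
      have h1 : w = 0 := hinj (hsub hw) (mem_ball_self one_pos) (by rw [hwl, hpn.val])
      rw [h1, mem_ball, dist_eq_norm, zero_sub, norm_neg, hu] at hw
      exact lt_irrefl _ hw
    · have hd := hND D.k D.b D.g 0 l (D.ψ 0) (D.ψ l) hD.cyc.inj (Ne.symm hl) (hD.mx 0) (hD.mx l)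
      have h4 : D.b l ∈ D.ψ l '' ball 0 1 := ⟨0, mem_ball_self one_pos, (hD.mx l).pn.val⟩
      exact (Set.disjoint_left.1 hd) ⟨w, hsub hw, hwl⟩ h4
  · intro w hw hwu
    apply hKO
    rintro ⟨w', hw', he⟩
    have h1 : w' = w := hinj (hsub hw') hw he
    rw [h1] at hw'
    exact hwu hw'

theorem PTS (hKO1 : V3.KO1_stmt) (hKO3 : V3.KO3_stmt) (hNI : MPS.NI_stmt) (hND : MPS.ND_stmt)
    (hBA1 : BA1_stmt) : PTS_stmt := by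
  obtain ⟨C₁, hC₁, hK1⟩ := hKO1
  obtain ⟨C₃, hC₃, hK3⟩ := hKO3 (1 / 2) (by norm_num) (by norm_num)
  have hC₁0 : 0 < C₁ := by linarith
  have hC₃0 : 0 < C₃ := by linarith
  have hC₃2 : 1 ≤ C₃ ^ 2 := by nlinarith
  have hC₃3 : C₃ ≤ C₃ ^ 2 := by nlinarith
  have hle : 16 * C₃ ^ 2 ≤ 16 * C₁ * C₃ ^ 2 := by nlinarith
  refine ⟨16 * C₁ * C₃ ^ 2, by linarith, ?_⟩
  intro n ra Cf D hD
  obtain ⟨hsg, -, -, hzx, -⟩ := hBA1 n ra Cf D hD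
  have hq : ‖(1 / 4 : ℂ)‖ = 1 / 4 := by norm_num
  have hq' : ‖(-(1 / 4) : ℂ)‖ = 1 / 4 := by rw [norm_neg]; norm_num
  obtain ⟨a1, a2, a3, a4, a5⟩ := PTS_one C₁ C₃ hC₁ hC₃ hK1 hK3 hNI hND n ra Cf D hD hsg hzx
    (1 / 4) hq
  obtain ⟨b1, b2, -, b4, -⟩ := PTS_one C₁ C₃ hC₁ hC₃ hK1 hK3 hNI hND n ra Cf D hD hsg hzx
    (-(1 / 4)) hq'
  have hinv : 1 / (16 * C₁ * C₃ ^ 2) ≤ 1 / (4 * C₁ * C₃) := by
    apply one_div_le_one_div_of_le (by positivity)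
    nlinarith
  have hinv2 : 1 / (16 * C₁ * C₃ ^ 2) ≤ 16 / C₃ ^ 2 := by
    rw [div_le_div_iff₀ (by positivity) (by positivity)]
    nlinarith
  refine ⟨D.xx (D.ψ 0 (1 / 4)), D.xx (D.ψ 0 (-(1 / 4))), by linarith, by linarith, ?_,
    by linarith, by linarith, by linarith, fun l => ⟨hinv.trans (a4 l), hinv.trans (b4 l)⟩,
    hzx _⟩
  refine hinv.trans (a5 (-(1 / 4)) ?_ ?_)
  · rw [mem_ball_zero_iff, hq']
    norm_num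
  · rw [mem_ball, dist_eq_norm]
    norm_num

end V3S
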